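import Pool.Agent.H31.FW.TargetsL

/-!
# The complete sum modulo the square of a prime
-/

set_option autoImplicit false

open NumberField

namespace Pool.Agent.H63.FW

open Pool.Agent.H31.FW
open Pool.Agent.H23.LB (Nf)
open Pool.Agent.H29.TC (LC MC AC)

/-- the trivial bound for the complete sum -/
theorem cs_norm_le {R : Type} [CommRing R] [Fintype R] {η θ : R → ℂ} (hη : MC η) (hθ : AC θ)
    (h : R) : ‖cs η θ h‖ ≤ (Fintype.card R : ℝ) := by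
  unfold cs
  refine (norm_sum_le _ _).trans ?_
  refine (Finset.sum_le_sum (g := fun _ => (1 : ℝ)) fun x _ => ?_).trans ?_
  · rw [norm_mul, norm_mul, hθ.norm, mul_one, Complex.norm_conj]
    exact mul_le_one₀ (hη.norm_le _) (norm_nonneg _) (hη.norm_le _)
  · simp

/-- the norm of an ideal between `P ^ e` and `P` -/
theorem Nf_le_of_le {K : Type} [Field K] [NumberField K] {I J : Ideal (𝓞 K)} (hI : I ≠ ⊥)
    (hIJ : I ≤ J) : Nf K J ≤ Nf K I := by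
  unfold Nf
  exact_mod_cast Nat.le_of_dvd (Nat.pos_of_ne_zero fun h => hI (Ideal.absNorm_eq_zero_iff.1 h))
    (Ideal.absNorm_dvd_absNorm_of_le hIJ)

theorem one_le_Nf {K : Type} [Field K] [NumberField K] {I : Ideal (𝓞 K)} (hI : I ≠ ⊥) :
    1 ≤ Nf K I := by
  unfold Nf
  exact_mod_cast Nat.pos_of_ne_zero fun h => hI (Ideal.absNorm_eq_zero_iff.1 h)

theorem Nf_pow {K : Type} [Field K] [NumberField K] (I : Ideal (𝓞 K)) (n : ℕ) :
    Nf K (I ^ n) = Nf K I ^ n := by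
  unfold Nf
  rw [map_pow]
  push_cast
  rfl

theorem card_quot {K : Type} [Field K] [NumberField K] (I : Ideal (𝓞 K)) [Fintype (𝓞 K ⧸ I)] :
    (Fintype.card (𝓞 K ⧸ I) : ℝ) = Nf K I := by
  unfold Nf
  rw [Ideal.absNorm_apply, Submodule.cardQuot_apply, Nat.card_eq_fintype_card]

theorem pf_L2 (hLS : Q_LS) (hCN : Q_CN) : Q_L2 := by
  intro K _ _ P hP hP0 _ η θ hη hθ h
  have hP2 : P ^ 2 ≠ ⊥ := pow_ne_zero 2 hP0
  have hJ0 : Ideal.span {h} ⊔ P ^ 2 ≠ ⊥ := fun h1 => hP2 (le_bot_iff.1 (h1 ▸ le_sup_right))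
  have hN1 : (1 : ℝ) ≤ Nf K (Ideal.span {h} ⊔ P ^ 2) := one_le_Nf hJ0
  have hNP : (1 : ℝ) ≤ Nf K P := one_le_Nf hP0
  by_cases hh : h ∈ P
  · have h1 : ‖cs η θ (Ideal.Quotient.mk (P ^ 2) h)‖ ≤ Nf K P ^ 2 := by
      have := cs_norm_le hη.mc hθ (Ideal.Quotient.mk (P ^ 2) h)
      rwa [card_quot, Nf_pow] at this
    have h2 : Ideal.span {h} ⊔ P ^ 2 ≤ P :=
      sup_le ((Ideal.span_singleton_le_iff_mem P).2 hh) (Ideal.pow_le_self two_ne_zero)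
    have h3 : Nf K P ≤ Nf K (Ideal.span {h} ⊔ P ^ 2) := Nf_le_of_le hJ0 h2
    rw [Nf_pow]
    have h4 : ‖cs η θ (Ideal.Quotient.mk (P ^ 2) h)‖ ^ 2 ≤ (Nf K P ^ 2) ^ 2 :=
      pow_le_pow_left₀ (norm_nonneg _) h1 2
    have h5 : Nf K P ^ 2 ≤ Nf K (Ideal.span {h} ⊔ P ^ 2) ^ 2 :=
      pow_le_pow_left₀ (zero_le_one.trans hNP) h3 2
    have h6 : (Nf K P ^ 2) * Nf K P ^ 2 ≤ Nf K P ^ 2 * Nf K (Ideal.span {h} ⊔ P ^ 2) ^ 2 :=
      mul_le_mul_of_nonneg_left h5 (by positivity)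
    have h7 : (0 : ℝ) ≤ Nf K P ^ 2 * Nf K (Ideal.span {h} ⊔ P ^ 2) ^ 2 := by positivity
    nlinarith
  · have hnil : ∀ z ∈ (P ^ 1).map (Ideal.Quotient.mk (P ^ 2)),
        ∀ z' ∈ (P ^ 1).map (Ideal.Quotient.mk (P ^ 2)), z * z' = 0 := by
      intro z hz z' hz'
      rw [Ideal.mem_map_iff_of_surjective _ Ideal.Quotient.mk_surjective] at hz hz'
      obtain ⟨x, hx, rfl⟩ := hz
      obtain ⟨x', hx', rfl⟩ := hz'
      rw [pow_one] at hx hx'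
      rw [← map_mul, Ideal.Quotient.eq_zero_iff_mem, pow_two]
      exact Ideal.mul_mem_mul hx hx'
    have key := hLS (𝓞 K ⧸ P ^ 2) ((P ^ 1).map (Ideal.Quotient.mk (P ^ 2))) η θ
      (Ideal.Quotient.mk (P ^ 2) h) hη.mc hη.prim hθ
      (fun z hz => ⟨2, (pow_two z).trans (hnil z hz z hz)⟩)
      (fun z hz z' hz' => by rw [hnil z hz z' hz', mul_zero])
    rcases key with h1 | ⟨y, hy, -, h1⟩
    · rw [h1, norm_zero]
      have : (0 : ℝ) ≤ Nf K (P ^ 2) * Nf K (Ideal.span {h} ⊔ P ^ 2) ^ 2 :=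
        mul_nonneg (zero_le_one.trans (one_le_Nf hP2)) (sq_nonneg _)
      nlinarith
    · obtain ⟨y, rfl⟩ := Ideal.Quotient.mk_surjective y
      have h2 := (hCN K P hP hP0 2 1 0 0 h y (by rw [pow_zero, Ideal.one_eq_top]; exact Submodule.mem_top)
        (by rw [zero_add, pow_one]; exact hh)).2 rfl
      have h3 : ‖cs η θ (Ideal.Quotient.mk (P ^ 2) h)‖ ≤ 2 * Nf K P ^ 1 := h1.trans h2
      rw [pow_one] at h3
      have h4 : ‖cs η θ (Ideal.Quotient.mk (P ^ 2) h)‖ ^ 2 ≤ (2 * Nf K P) ^ 2 :=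
        pow_le_pow_left₀ (norm_nonneg _) h3 2
      rw [Nf_pow]
      have h5 : (1 : ℝ) ≤ Nf K (Ideal.span {h} ⊔ P ^ 2) ^ 2 := one_le_pow₀ hN1
      have h6 : Nf K P ^ 2 * 1 ≤ Nf K P ^ 2 * Nf K (Ideal.span {h} ⊔ P ^ 2) ^ 2 :=
        mul_le_mul_of_nonneg_left h5 (by positivity)
      have h7 : (0 : ℝ) ≤ Nf K P ^ 2 := by positivity
      nlinarith

end Pool.Agent.H63.FW
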